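import Pool.Agent.Helper32.OIP.Goals

/-!
Packet OIP-S1 of helper32: small noise changes a measurable function rarely.
-/

open MeasureTheory
open scoped ENNReal

namespace Pool.Agent.Helper69.OIP

open Pool.Agent.Helper32.OIP Pool.Agent.Helper58.Orb

/-- The measure of the event that a given coordinate is resampled. -/
theorem resample_real (hMA1 : GoalMA1) (hS0 : GoalS0) (C : Type) (q : ℝ) (h0 : 0 ≤ q) (h1 : q ≤ 1)
    (a : C) : (pm C (nu q)).real {z | (z a).2.1 = true} = 1 - q := by
  obtain ⟨hp, hz, -, -⟩ := (hS0 hMA1).1 q h0 h1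
  have hev : MeasurePreserving (fun z : C → E0 => z a) (pm C (nu q)) (nu q) :=
    measurePreserving_eval_infinitePi (fun _ : C => nu q) a
  have hms : MeasurableSet {e : E0 | e.2.1 = true} :=
    (measurable_fst.comp measurable_snd) (measurableSet_singleton true)
  have e1 : (pm C (nu q)).real {z | (z a).2.1 = true} = (nu q).real {e : E0 | e.2.1 = true} := by
    have := hev.measureReal_preimage hms.nullMeasurableSet
    exact this
  have hs : {e : E0 | e.2.1 = true} = (Set.univ : Set unitInterval) ×ˢ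
      (({true} : Set Bool) ×ˢ (Set.univ : Set unitInterval)) := by
    ext e
    simp
  have e2 : (nu q) {e : E0 | e.2.1 = true} = ENNReal.ofReal (1 - q) := by
    rw [hs, nu, Measure.prod_prod, nz, Measure.prod_prod, measure_univ, ber]
    simp
  rw [e1, Measure.real, e2, ENNReal.toReal_ofReal (by linarith)]

/-- The basic estimate. -/
theorem dl_le (hMA1 : GoalMA1) (hS0 : GoalS0) (C K : Type) [Fintype K] (κ α : Bern C → K)
    (hκ : ∀ k, MeasurableSet {x | κ x = k}) (hα : ∀ k, MeasurableSet {x | α x = k})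
    (F : Finset C) (hF : DependsOn α (F : Set C)) (ε : ℝ)
    (hε : (bern C).real {x | α x ≠ κ x} ≤ ε) (q : ℝ) (h0 : 0 ≤ q) (h1 : q ≤ 1) :
    dl κ q ≤ 2 * ε + F.card * (1 - q) := by
  obtain ⟨hp, hz, -, hJ⟩ := (hS0 hMA1).1 q h0 h1
  have hfst : MeasurePreserving (Prod.fst : E0 → unitInterval) (nu q) volume := by
    unfold nu
    exact measurePreserving_fst
  have hfs : MeasurePreserving (fs : (C → E0) → Bern C) (pm C (nu q)) (bern C) :=
    hMA1.1 C E0 unitInterval (nu q) volume (fun _ => Prod.fst) (fun _ => hfst)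
  have hfsJ : MeasurePreserving (fun z : C → E0 => (fs (Jb z) : Bern C)) (pm C (nu q)) (bern C) :=
    hfs.comp (hJ C)
  have : IsProbabilityMeasure (pm C (nu q)) := by
    unfold pm
    infer_instance
  have hbad : MeasurableSet {x : Bern C | α x ≠ κ x} := by
    have : {x : Bern C | α x ≠ κ x} = (⋃ k : K, ({x | α x = k} ∩ {x | κ x = k}))ᶜ := by
      ext x
      simp only [ne_eq, Set.mem_ofPred_eq, Set.mem_compl_iff, Set.mem_iUnion, Set.mem_inter_iff,
        not_exists, not_and]
      constructor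
      · intro h k hk hk'
        exact h (hk.trans hk'.symm)
      · intro h h'
        exact h (α x) rfl h'.symm
    rw [this]
    exact (MeasurableSet.iUnion fun k => (hα k).inter (hκ k)).compl
  have hsub : {z : C → E0 | κ (fs z) ≠ κ (fs (Jb z))} ⊆
      ((fs ⁻¹' {x : Bern C | α x ≠ κ x}) ∪ ((fun z : C → E0 => (fs (Jb z) : Bern C)) ⁻¹'
        {x : Bern C | α x ≠ κ x})) ∪ ⋃ a ∈ F, {z : C → E0 | (z a).2.1 = true} := by
    intro z hz
    by_contra hcon
    simp only [Set.mem_union, Set.mem_preimage, Set.mem_ofPred_eq, Set.mem_iUnion, not_or,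
      not_exists, ne_eq, not_not] at hcon
    obtain ⟨⟨ha, hb⟩, hc⟩ := hcon
    apply hz
    rw [← ha, ← hb]
    apply hF
    intro a haF
    have hca : (z a).2.1 = false := by
      have := hc a haF
      simpa using this
    simp [fs, Jb, jn, hca]
  have hU : (pm C (nu q)).real (⋃ a ∈ F, {z : C → E0 | (z a).2.1 = true}) ≤
      F.card * (1 - q) := by
    refine (measureReal_biUnion_finset_le F _).trans ?_
    rw [Finset.sum_congr rfl fun a _ => resample_real hMA1 hS0 C q h0 h1 a, Finset.sum_const,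
      nsmul_eq_mul]
  have e1 : (pm C (nu q)).real (fs ⁻¹' {x : Bern C | α x ≠ κ x}) ≤ ε := by
    rw [hfs.measureReal_preimage hbad.nullMeasurableSet]
    exact hε
  have e2 : (pm C (nu q)).real ((fun z : C → E0 => (fs (Jb z) : Bern C)) ⁻¹'
      {x : Bern C | α x ≠ κ x}) ≤ ε := by
    rw [hfsJ.measureReal_preimage hbad.nullMeasurableSet]
    exact hε
  calc dl κ q = (pm C (nu q)).real {z : C → E0 | κ (fs z) ≠ κ (fs (Jb z))} := rfl
    _ ≤ _ := measureReal_mono hsub
    _ ≤ _ := measureReal_union_le _ _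
    _ ≤ _ := add_le_add (measureReal_union_le _ _) hU
    _ ≤ 2 * ε + F.card * (1 - q) := by linarith

theorem qj_tendsto : Filter.Tendsto qj Filter.atTop (nhds 1) := by
  have h1 : Filter.Tendsto (fun j : ℕ => ((1 / 2 : ℝ) ^ j)) Filter.atTop (nhds 0) :=
    tendsto_pow_atTop_nhds_zero_of_lt_one (by norm_num) (by norm_num)
  have h2 : Filter.Tendsto (fun x : ℝ => (1 / 2 : ℝ) ^ x) (nhds 0) (nhds ((1 / 2 : ℝ) ^ (0 : ℝ))) :=
    (Real.continuous_const_rpow (by norm_num)).tendsto 0
  rw [Real.rpow_zero] at h2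
  exact h2.comp h1

theorem qj_mem (j : ℕ) : 0 ≤ qj j ∧ qj j ≤ 1 := by
  constructor
  · unfold qj
    positivity
  · unfold qj
    exact Real.rpow_le_one (by norm_num) (by norm_num) (by positivity)

/-- **Packet OIP-S1.** -/
theorem s1 : GoalS1 := by
  intro hMA1 hMA4 hS0 C K _ κ hκ
  rw [Metric.tendsto_atTop]
  intro ε hε
  obtain ⟨F, α, hα, hF, hle⟩ := hMA4 C unitInterval K volume κ hκ (ε / 4) (by positivity)
  have hle' : (bern C).real {x | α x ≠ κ x} ≤ ε / 4 := hle
  have ht : Filter.Tendsto (fun j => (F.card : ℝ) * (1 - qj j)) Filter.atTop (nhds 0) := by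
    have := (qj_tendsto.const_sub 1).const_mul (F.card : ℝ)
    simpa using this
  obtain ⟨N, hN⟩ := (Metric.tendsto_atTop.1 ht) (ε / 2) (by positivity)
  refine ⟨N, fun j hj => ?_⟩
  have hb := dl_le hMA1 hS0 C K κ α hκ hα F hF (ε / 4) hle' (qj j) (qj_mem j).1 (qj_mem j).2
  have hn := hN j hj
  rw [Real.dist_eq, sub_zero] at hn
  have hn' := (abs_lt.1 hn).2
  have hnn : 0 ≤ dl κ (qj j) := measureReal_nonneg
  rw [Real.dist_eq, sub_zero, abs_of_nonneg hnn]
  linarith

end Pool.Agent.Helper69.OIP
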